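import Mathlib
import Pool.Agent.Lib.MP_544bd1_al.Defs
import Pool.Agent.Lib.MP_544bd1_al.GenDefs
import Pool.Agent.Lib.MP_544bd1_al.CritDefs
import Pool.Agent.Lib.MP_544bd1_al.CritComb

/-!
# The Burnside problem for arbitrary exponents reduces to prime powers and four generators

Let `n ≥ 1` and assume that the nonabelian simple sections of the group `B_{4,n}` are generated by two
elements in case this group is finite (this condition holds for all finite groups by the classification
of the finite simple groups). Then `n ∈ 𝓛` if and only if `B_{4,n}` is finite and for every prime power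
`q ≥ 7` exactly dividing `n`:

* if `B_{r,q}` is finite for all `r ≤ 3 * |B_{4,n/q}| + 1` and if, for every `e ∈ 𝓛` and every `k`,
  the `k`-th derived subgroup of the normal closure of `x ^ e` in `B_{k+1,q}`, where `x` is the first
  free generator, is nontrivial, then `q ∈ 𝓛`.
-/

namespace Pool.Agent.Results.MP_544bd1_al.GeneralExponent

open Pool.Agent.Lib.MP_544bd1_al Subgroup

/-- **Four generators and prime powers decide every exponent.** -/
theorem result (n : ℕ) (hn : 0 < n)
    (hgen : Finite (FreeBurnside 4 n) → SimpleSectionsTwoGenerated (FreeBurnside 4 n)) :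
    n ∈ LocFinExponents ↔ Finite (FreeBurnside 4 n) ∧
      ∀ p : ℕ, p.Prime → p ∣ n → 7 ≤ p ^ n.factorization p →
        (∀ r ≤ 3 * Nat.card (FreeBurnside 4 (n / p ^ n.factorization p)) + 1,
          Finite (FreeBurnside r (p ^ n.factorization p))) →
        LongDerivedSeries (p ^ n.factorization p) →
        p ^ n.factorization p ∈ LocFinExponents :=
  exponent_four_comb n hn hgen

end Pool.Agent.Results.MP_544bd1_al.GeneralExponent
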