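import Mathlib
import Pool.Agent.Lib.MP_544bd1_al.Defs
import Pool.Agent.Lib.MP_544bd1_al.GenDefs
import Pool.Agent.Lib.MP_544bd1_al.IpH

/-!
# Inverted pairs decide even exponents

Let `n` be even and assume

* (i) `n = p ^ a * q ^ b` with primes `p`, `q` or, more generally, all finite groups satisfying
  `x ^ n = 1` are soluble;
* (ii) `8` does not divide `n`, or no square of a Mersenne prime `2 ^ j - 1` with `2 ^ j ∣ n`
  divides `n`.

Then `n ∈ 𝓛` if and only if

* in every group satisfying `x ^ n = 1` any two elements, the first of which is inverted by some `t`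
  with `t ^ 2 = 1`, generate a finite subgroup, and
* for every prime power `q ≥ 7` exactly dividing `n`, if `B_{4,q'}` is finite, where
  `q' = gcd(q, n / 2)`, then `q ∈ 𝓛`.

In particular, let `n = 2 ^ a * 3` or `n = 2 ^ a * 5`, `a ≥ 1`. Then `n ∈ 𝓛` if and only if the first
condition holds and, if `a ≥ 3`, `2 ^ a ∈ 𝓛`.
-/

namespace Pool.Agent.Results.MP_544bd1_al.InvertedPairs

open Pool.Agent.Lib.MP_544bd1_al Subgroup

/-- In every group satisfying `x ^ n = 1` any two elements, the first of which is inverted by some `t`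
with `t ^ 2 = 1`, generate a finite subgroup. -/
def InvertedPairsFinite (n : ℕ) : Prop :=
  ∀ (G : Type) [Group G], (∀ g : G, g ^ n = 1) →
    ∀ t x y : G, t ^ 2 = 1 → t * x * t = x⁻¹ → Finite (closure {x, y})

/-- **Inverted pairs decide even exponents.** -/
theorem result :
    (∀ n : ℕ, 0 < n → 2 ∣ n →
      ((∃ p q a b : ℕ, p.Prime ∧ q.Prime ∧ n = p ^ a * q ^ b) ∨
        ∀ (F : Type) [Group F] [Finite F], (∀ x : F, x ^ n = 1) → Group.IsSolvable F) →
      (¬ 8 ∣ n ∨ ∀ j : ℕ, (2 ^ j - 1).Prime → 2 ^ j ∣ n → ¬ (2 ^ j - 1) ^ 2 ∣ n) →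
      (n ∈ LocFinExponents ↔ InvertedPairsFinite n ∧
        ∀ p : ℕ, p.Prime → p ∣ n → 7 ≤ p ^ n.factorization p →
          Finite (FreeBurnside 4 (Nat.gcd (p ^ n.factorization p) (n / 2))) →
          p ^ n.factorization p ∈ LocFinExponents)) ∧
    ∀ a p : ℕ, 1 ≤ a → p = 3 ∨ p = 5 →
      (2 ^ a * p ∈ LocFinExponents ↔
        InvertedPairsFinite (2 ^ a * p) ∧ (3 ≤ a → 2 ^ a ∈ LocFinExponents)) := by
  refine ⟨fun n hn h2 hsol hsq => ip_final hn h2 hsol hsq, fun a p ha hp => ?_⟩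
  rw [ip_final_eight ha hp]
  refine ⟨fun h => ⟨h.1, fun _ => h.2⟩, fun h => ⟨h.1, ?_⟩⟩
  by_cases h3 : 3 ≤ a
  · exact h.2 h3
  · exact mem_of_dvd (pow_dvd_pow 2 (show a ≤ 2 by omega)) four_mem

end Pool.Agent.Results.MP_544bd1_al.InvertedPairs
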