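import Mathlib
import Pool.Agent.Lib.MP_544bd1_al.Defs
import Pool.Agent.Lib.MP_544bd1_al.GenDefs
import Pool.Agent.Lib.MP_544bd1_al.ZsComp

/-!
# Groups all of whose two-generator subgroups are finite and soluble

Let `n` be a positive integer. A group satisfying `x ^ n = 1` all of whose two-generator subgroups are
finite and soluble is locally finite if and only if all its sections which are `p`-groups for some prime
`p` are locally finite.
-/

namespace Pool.Agent.Results.MP_544bd1_al.TwoGeneratorGroups

open Pool.Agent.Lib.MP_544bd1_al Subgroup

/-- **A group of finite exponent all of whose two-generator subgroups are finite and soluble is locally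
finite if and only if its sections of prime power exponent are.** -/
theorem result (n : ℕ) (hn : 0 < n) (G : Type) [Group G] (hG : ∀ g : G, g ^ n = 1)
    (h2 : ∀ x y : G, Finite (closure {x, y}) ∧ Group.IsSolvable (closure {x, y})) :
    IsLocFinite G ↔ PSectionsLocFinite G :=
  two_group hn G hG h2

end Pool.Agent.Results.MP_544bd1_al.TwoGeneratorGroups
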