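import Mathlib
import Pool.Agent.Lib.MP_544bd1_al.Defs
import Pool.Agent.Lib.MP_544bd1_al.GenDefs
import Pool.Agent.Lib.MP_544bd1_al.CritDefs
import Pool.Agent.Lib.MP_544bd1_al.CritComb

/-!
# Two generators and prime powers suffice, for every exponent

Let `n` be a positive integer. If `n = p ^ a * q ^ b` with primes `p`, `q`, or, more generally, if
`B_{2,n}` is infinite or soluble (for odd `n` this always holds by the Feit-Thompson theorem), then
`n ∈ 𝓛` if and only if `B_{2,n}` is finite and `q ∈ 𝓛` for all exact prime powers `q ≥ 7` of `n` (for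
`n = 5`: and `5 ∈ 𝓛`). It even suffices to know `q ∈ 𝓛` under the following two conditions:

* `B_{r,q}` is finite for all `r ≤ |B_{2,n/q}| + 1`;
* for every `e ∈ 𝓛` and every `k` the `k`-th derived subgroup of the normal closure of `x ^ e` in
  `B_{k+1,q}`, where `x` is the first free generator, is nontrivial.
-/

namespace Pool.Agent.Results.MP_544bd1_al.TwoGenerators

open Pool.Agent.Lib.MP_544bd1_al Subgroup

/-- **Two generators and prime powers suffice.** -/
theorem result (n : ℕ) (hn : 0 < n) :
    ((∃ p q a b : ℕ, p.Prime ∧ q.Prime ∧ n = p ^ a * q ^ b) ∨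
        (Finite (FreeBurnside 2 n) → Group.IsSolvable (FreeBurnside 2 n))) →
      (n ∈ LocFinExponents ↔ Finite (FreeBurnside 2 n) ∧
        ∀ p : ℕ, p.Prime → p ∣ n → (7 ≤ p ^ n.factorization p ∨ n = 5) →
          (∀ r ≤ Nat.card (FreeBurnside 2 (n / p ^ n.factorization p)) + 1,
            Finite (FreeBurnside r (p ^ n.factorization p))) →
          LongDerivedSeries (p ^ n.factorization p) →
          p ^ n.factorization p ∈ LocFinExponents) :=
  fun hsol => two_exponent_comb hn hsol

end Pool.Agent.Results.MP_544bd1_al.TwoGenerators
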